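import Pool.Agent.helper32.CK.Defs

/-!
# The strong closure of the selfadjoint unit ball: first properties
-/

set_option autoImplicit false

namespace Pool.Agent.helper32.CK

open scoped InnerProductSpace ComplexOrder
open Filter Topology

universe u v w

variable {A : Type u} [NonUnitalCStarAlgebra A] {H : Type v} [NormedAddCommGroup H]
  [InnerProductSpace ℂ H] [CompleteSpace H] {σ : A →⋆ₙₐ[ℂ] (H →L[ℂ] H)}

theorem C1_norm (σ : A →⋆ₙₐ[ℂ] (H →L[ℂ] H)) (y : A) : ‖σ y‖ ≤ ‖y‖ :=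
  NonUnitalStarAlgHom.norm_apply_le σ y

theorem C1_sa {y : A} (hy : IsSelfAdjoint y) : IsSelfAdjoint (σ y) := hy.map σ

theorem C1_inner {T : H →L[ℂ] H} (hT : IsSelfAdjoint T) (u v : H) :
    ⟪T u, v⟫_ℂ = ⟪u, T v⟫_ℂ := by
  exact ContinuousLinearMap.isSelfAdjoint_iff_isSymmetric.1 hT u v

theorem Cl.isSelfAdjoint {x : H →L[ℂ] H} (hx : x ∈ Cl σ) : IsSelfAdjoint x := by
  rw [ContinuousLinearMap.isSelfAdjoint_iff_isSymmetric]
  intro u v
  change ⟪x u, v⟫_ℂ = ⟪u, x v⟫_ℂ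
  classical
  have hkey : ∀ κ : ℝ, 0 < κ → ‖⟪x u, v⟫_ℂ - ⟪u, x v⟫_ℂ‖ ≤ ‖u‖ * κ + κ * ‖v‖ := by
    intro κ hκ
    obtain ⟨y, hy, -, hyF⟩ := hx {u, v} κ hκ
    have h1 := hyF u (by simp)
    have h2 := hyF v (by simp)
    have e : ⟪x u, v⟫_ℂ - ⟪u, x v⟫_ℂ = ⟪u, σ y v - x v⟫_ℂ - ⟪σ y u - x u, v⟫_ℂ := by
      rw [inner_sub_right, inner_sub_left, C1_inner (C1_sa hy)]
      ring
    rw [e]
    refine (norm_sub_le _ _).trans (add_le_add ?_ ?_)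
    · exact (norm_inner_le_norm _ _).trans (mul_le_mul_of_nonneg_left h2 (norm_nonneg _))
    · exact (norm_inner_le_norm _ _).trans (mul_le_mul_of_nonneg_right h1 (norm_nonneg _))
  by_contra hne
  have hpos : 0 < ‖⟪x u, v⟫_ℂ - ⟪u, x v⟫_ℂ‖ := norm_pos_iff.2 (sub_ne_zero.2 hne)
  have h3 := hkey (‖⟪x u, v⟫_ℂ - ⟪u, x v⟫_ℂ‖ / (2 * (‖u‖ + ‖v‖ + 1))) (by positivity)
  set c : ℝ := ‖⟪x u, v⟫_ℂ - ⟪u, x v⟫_ℂ‖ with hc
  have h4 : ‖u‖ * (c / (2 * (‖u‖ + ‖v‖ + 1))) + (c / (2 * (‖u‖ + ‖v‖ + 1))) * ‖v‖ =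
      c * ((‖u‖ + ‖v‖) / (‖u‖ + ‖v‖ + 1)) / 2 := by
    field_simp
  rw [h4] at h3
  have h5 : (‖u‖ + ‖v‖) / (‖u‖ + ‖v‖ + 1) ≤ 1 := by
    rw [div_le_one (by positivity)]
    linarith
  have h6 := mul_le_mul_of_nonneg_left h5 hpos.le
  linarith

theorem Cl.norm_le {x : H →L[ℂ] H} (hx : x ∈ Cl σ) : ‖x‖ ≤ 1 := by
  refine ContinuousLinearMap.opNorm_le_bound _ zero_le_one fun v => ?_
  rw [one_mul]
  refine le_of_forall_pos_le_add fun κ hκ => ?_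
  obtain ⟨y, -, hy1, hyF⟩ := hx {v} κ hκ
  have h1 := hyF v (by simp)
  have h2 : ‖σ y v‖ ≤ ‖v‖ := by
    refine ((σ y).le_opNorm v).trans ?_
    have := (C1_norm σ y).trans hy1
    calc ‖σ y‖ * ‖v‖ ≤ 1 * ‖v‖ := by gcongr
      _ = ‖v‖ := one_mul _
  have e : x v = σ y v - (σ y v - x v) := by abel
  rw [e]
  exact (norm_sub_le _ _).trans (add_le_add h2 h1)

theorem Cl.wlim {J : Type w} (𝒰 : Ultrafilter J) (y : J → A) (hy : ∀ j, IsSelfAdjoint (y j))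
    (hy1 : ∀ j, ‖y j‖ ≤ 1) (L : H →L[ℂ] H)
    (hL : ∀ x w, Tendsto (fun j => ⟪w, σ (y j) x⟫_ℂ) 𝒰 (𝓝 ⟪w, L x⟫_ℂ)) : L ∈ Cl σ := by
  classical
  intro F κ hκ
  by_contra hcon
  push Not at hcon
  -- the convex set of the tuples
  let E := PiLp 2 (fun _ : F => H)
  let K : Set E := {t | ∃ a : A, IsSelfAdjoint a ∧ ‖a‖ ≤ 1 ∧ ∀ v : F, t v = σ a v.1}
  let t₀ : E := WithLp.toLp 2 (fun v : F => L v.1)
  have hKc : Convex ℝ K := by
    rintro s ⟨a, ha, ha1, hs⟩ t ⟨b, hb, hb1, ht⟩ α β hα hβ hαβ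
    refine ⟨(α : ℂ) • a + (β : ℂ) • b, ?_, ?_, fun v => ?_⟩
    · rw [isSelfAdjoint_iff, star_add, star_smul, star_smul, ha.star_eq, hb.star_eq]
      simp
    · refine (norm_add_le _ _).trans ?_
      rw [norm_smul, norm_smul, Complex.norm_real, Complex.norm_real, Real.norm_of_nonneg hα,
        Real.norm_of_nonneg hβ]
      have := mul_le_mul_of_nonneg_left ha1 hα
      have := mul_le_mul_of_nonneg_left hb1 hβ
      linarith
    · have e1 : (α • s + β • t) v = (α : ℂ) • s v + (β : ℂ) • t v := rfl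
      rw [e1, hs v, ht v, map_add, map_smul, map_smul]
      rfl
  have hcl : t₀ ∉ closure K := by
    intro hmem
    rw [Metric.mem_closure_iff] at hmem
    obtain ⟨t, ⟨a, ha, ha1, ht⟩, hdist⟩ := hmem κ hκ
    obtain ⟨v, hvF, hv⟩ := hcon a ha ha1
    have h1 : ‖(t₀ - t) ⟨v, hvF⟩‖ ≤ ‖t₀ - t‖ := PiLp.norm_apply_le _ _
    rw [dist_eq_norm] at hdist
    have h2 : (t₀ - t) ⟨v, hvF⟩ = L v - σ a v := by
      rw [PiLp.sub_apply, ht]
    rw [h2, norm_sub_rev] at h1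
    linarith
  obtain ⟨f, u, hfu, huf⟩ := RCLike.geometric_hahn_banach_closed_point (𝕜 := ℂ) hKc.closure
    isClosed_closure hcl
  obtain ⟨g, hg⟩ : ∃ g : E, ∀ t : E, f t = ⟪g, t⟫_ℂ :=
    ⟨(InnerProductSpace.toDual ℂ E).symm f, fun t => by
      rw [InnerProductSpace.toDual_symm_apply]⟩
  have hfs : ∀ t : E, f t = ∑ v : F, ⟪g v, t v⟫_ℂ := fun t => by rw [hg, PiLp.inner_apply]
  let T : J → E := fun j => WithLp.toLp 2 (fun v : F => σ (y j) v.1)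
  have hT : ∀ j, T j ∈ closure K := fun j =>
    subset_closure ⟨y j, hy j, hy1 j, fun v => rfl⟩
  have hlim : Tendsto (fun j => f (T j)) 𝒰 (𝓝 (f t₀)) := by
    simp only [hfs]
    exact tendsto_finsetSum _ fun v _ => hL v.1 (g v)
  have hlim' : Tendsto (fun j => RCLike.re (f (T j))) 𝒰 (𝓝 (RCLike.re (f t₀))) :=
    (RCLike.continuous_re.tendsto _).comp hlim
  have h3 : RCLike.re (f t₀) ≤ u :=
    le_of_tendsto hlim' (Eventually.of_forall fun j => (hfu _ (hT j)).le)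
  exact absurd huf (not_lt.2 h3)

theorem Cl.sandwich {p : H →L[ℂ] H} (hp : p ∈ Cl σ) (a : A) (ha : IsSelfAdjoint a)
    (ha1 : ‖a‖ ≤ 1) : p * σ a * p ∈ Cl σ := by
  classical
  intro F κ hκ
  obtain ⟨y, hy, hy1, hyF⟩ := hp (F ∪ F.image (fun v => σ a (p v))) (κ / 2) (by positivity)
  refine ⟨y * a * y, ?_, ?_, fun v hv => ?_⟩
  · have := ha.conjugate y
    rwa [hy.star_eq] at this
  · calc ‖y * a * y‖ ≤ ‖y‖ * ‖a‖ * ‖y‖ := norm_mul₃_le
      _ ≤ 1 * 1 * 1 := by gcongr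
      _ = 1 := by norm_num
  · have h1 := hyF v (Finset.mem_union_left _ hv)
    have h2 := hyF (σ a (p v)) (Finset.mem_union_right _ (Finset.mem_image_of_mem _ hv))
    have hσy : ‖σ y‖ ≤ 1 := (C1_norm σ y).trans hy1
    have hσa : ‖σ a‖ ≤ 1 := (C1_norm σ a).trans ha1
    have e : σ (y * a * y) v - (p * σ a * p) v =
        σ y (σ a (σ y v - p v)) + (σ y (σ a (p v)) - p (σ a (p v))) := by
      rw [map_mul, map_mul, map_sub, map_sub]
      simp only [ContinuousLinearMap.mul_apply]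
      abel
    rw [e]
    have h3 : ‖σ y (σ a (σ y v - p v))‖ ≤ κ / 2 := by
      calc ‖σ y (σ a (σ y v - p v))‖ ≤ 1 * (1 * (κ / 2)) := by
            refine ((σ y).le_opNorm _).trans ?_
            gcongr
            refine ((σ a).le_opNorm _).trans ?_
            gcongr
        _ = κ / 2 := by ring
    calc ‖σ y (σ a (σ y v - p v)) + (σ y (σ a (p v)) - p (σ a (p v)))‖ ≤ κ / 2 + κ / 2 :=
          (norm_add_le _ _).trans (add_le_add h3 h2)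
      _ = κ := by ring

end Pool.Agent.helper32.CK
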