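import Pool.Agent.helper33.CK.C1

/-!
# The strong closure of the selfadjoint unit ball: functional calculus
-/

set_option autoImplicit false

namespace Pool.Agent.helper32.CK

open scoped InnerProductSpace ComplexOrder
open Filter Topology

universe u v w

variable {A : Type u} [NonUnitalCStarAlgebra A] {H : Type v} [NormedAddCommGroup H]
  [InnerProductSpace ℂ H] [CompleteSpace H] {σ : A →⋆ₙₐ[ℂ] (H →L[ℂ] H)}

/-- powers -/
theorem C2_pow (T x : H →L[ℂ] H) (hT : ‖T‖ ≤ 1) (κ : ℝ) (n : ℕ) (v : H)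
    (h : ∀ i < n, ‖T ((x ^ i) v) - x ((x ^ i) v)‖ ≤ κ) : ‖(T ^ n) v - (x ^ n) v‖ ≤ n * κ := by
  induction n with
  | zero => simp
  | succ n ih =>
    have h1 := ih fun i hi => h i (by omega)
    have h2 := h n (by omega)
    have e : (T ^ (n + 1)) v - (x ^ (n + 1)) v =
        T ((T ^ n) v - (x ^ n) v) + (T ((x ^ n) v) - x ((x ^ n) v)) := by
      rw [pow_succ', pow_succ', map_sub]
      change T ((T ^ n) v) - x ((x ^ n) v) = _
      abel
    rw [e, Nat.cast_add, Nat.cast_one]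
    have h3 : ‖T ((T ^ n) v - (x ^ n) v)‖ ≤ n * κ := by
      calc ‖T ((T ^ n) v - (x ^ n) v)‖ ≤ ‖T‖ * ‖(T ^ n) v - (x ^ n) v‖ := T.le_opNorm _
        _ ≤ 1 * (n * κ) := by gcongr
        _ = n * κ := one_mul _
    calc _ ≤ n * κ + κ := (norm_add_le _ _).trans (add_le_add h3 h2)
      _ = (n + 1) * κ := by ring

/-- polynomials -/
theorem C2_poly (P : Polynomial ℝ) (T x : H →L[ℂ] H) (hT : ‖T‖ ≤ 1) (κ : ℝ) (v : H)
    (h : ∀ i < P.natDegree + 1, ‖T ((x ^ i) v) - x ((x ^ i) v)‖ ≤ κ) :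
    ‖(Polynomial.aeval T P) v - (Polynomial.aeval x P) v‖ ≤
      (∑ i ∈ Finset.range (P.natDegree + 1), |P.coeff i| * i) * κ := by
  have e : ∀ T : H →L[ℂ] H, (Polynomial.aeval T P) v =
      ∑ i ∈ Finset.range (P.natDegree + 1), P.coeff i • (T ^ i) v := by
    intro T
    rw [Polynomial.aeval_eq_sum_range]
    simp
  rw [e, e, ← Finset.sum_sub_distrib, Finset.sum_mul]
  refine (norm_sum_le _ _).trans (Finset.sum_le_sum fun i hi => ?_)
  rw [← smul_sub, norm_smul, Real.norm_eq_abs, mul_assoc]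
  refine mul_le_mul_of_nonneg_left ?_ (abs_nonneg _)
  exact C2_pow T x hT κ i v fun j hj => h j (by
    rw [Finset.mem_range] at hi
    omega)

theorem C2_spec {T : H →L[ℂ] H} (hT : ‖T‖ ≤ 1) {t : ℝ} (ht : t ∈ spectrum ℝ T) :
    t ∈ Set.Icc (-1 : ℝ) 1 := by
  obtain (hn | hn) := subsingleton_or_nontrivial (H →L[ℂ] H)
  · rw [spectrum.of_subsingleton] at ht
    exact absurd ht (Set.notMem_empty _)
  · have h1 : ‖t‖ ≤ ‖T‖ := spectrum.norm_le_norm_of_mem ht
    rw [Real.norm_eq_abs] at h1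
    exact abs_le.1 (h1.trans hT)

/-- a polynomial near `f` on `[-1,1]` -/
theorem C2_near {T : H →L[ℂ] H} (hTs : IsSelfAdjoint T) (hT : ‖T‖ ≤ 1) (f : ℝ → ℝ)
    (hf : Continuous f) (P : Polynomial ℝ) (κ : ℝ) (hκ : 0 ≤ κ)
    (hP : ∀ t ∈ Set.Icc (-1 : ℝ) 1, |P.eval t - f t| ≤ κ) (v : H) :
    ‖(cfc f T) v - (Polynomial.aeval T P) v‖ ≤ κ * ‖v‖ := by
  have h1 : ‖cfc f T - Polynomial.aeval T P‖ ≤ κ := by
    rw [← cfc_polynomial P T hTs, ← cfc_sub f P.eval T]
    refine norm_cfc_le hκ fun t ht => ?_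
    have := hP t (C2_spec hT ht)
    rwa [Real.norm_eq_abs, abs_sub_comm]
  rw [← sub_apply]
  exact ((_ : H →L[ℂ] H).le_opNorm v).trans (mul_le_mul_of_nonneg_right h1 (norm_nonneg v))

theorem Cl.cfc_mem {x : H →L[ℂ] H} (hx : x ∈ Cl σ) (f : ℝ → ℝ) (hf : Continuous f)
    (hf0 : f 0 = 0) (hf1 : ∀ t ∈ Set.Icc (-1 : ℝ) 1, |f t| ≤ 1) : cfc f x ∈ Cl σ := by
  classical
  have hxs := Cl.isSelfAdjoint hx
  have hx1 := Cl.norm_le hx
  intro F κ hκ
  -- a bound for the norms of the vectors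
  obtain ⟨R, hR0, hR⟩ : ∃ R : ℝ, 0 < R ∧ ∀ v ∈ F, ‖v‖ ≤ R := by
    refine ⟨∑ v ∈ F, ‖v‖ + 1, by positivity, fun v hv => ?_⟩
    have := Finset.single_le_sum (f := fun v : H => ‖v‖) (fun _ _ => norm_nonneg _) hv
    linarith
  obtain ⟨P, hP⟩ := exists_polynomial_near_of_continuousOn (-1) 1 f hf.continuousOn (κ / (3 * R))
    (by positivity)
  set c : ℝ := ∑ i ∈ Finset.range (P.natDegree + 1), |P.coeff i| * i with hc
  have hc0 : 0 ≤ c := Finset.sum_nonneg fun i _ => by positivity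
  obtain ⟨y, hy, hy1, hyF⟩ := hx
    ((Finset.range (P.natDegree + 1)).biUnion fun i => F.image fun v => (x ^ i) v)
    (κ / (3 * (c + 1))) (by positivity)
  have hσy : ‖σ y‖ ≤ 1 := (C1_norm σ y).trans hy1
  have hσs : IsSelfAdjoint (σ y) := C1_sa hy
  refine ⟨cfcₙ f y, cfcₙ_predicate f y, ?_, fun v hv => ?_⟩
  · refine norm_cfcₙ_le fun t ht => ?_
    have h1 : ‖t‖ ≤ ‖y‖ :=
      NonUnitalIsometricContinuousFunctionalCalculus.norm_quasispectrum_le y ht
    rw [Real.norm_eq_abs] at h1 ⊢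
    exact hf1 t (abs_le.1 (h1.trans hy1))
  · have e1 : σ (cfcₙ f y) = cfc f (σ y) := by
      rw [NonUnitalStarAlgHom.map_cfcₙ σ f y hf.continuousOn hf0
        (AddMonoidHomClass.continuous_of_bound σ 1 fun a => by
          rw [one_mul]; exact C1_norm σ a) hy hσs, cfcₙ_eq_cfc hf.continuousOn hf0]
    rw [e1]
    have h1 := C2_near hσs hσy f hf P (κ / (3 * R)) (by positivity) (fun t ht => (hP t ht).le) v
    have h2 := C2_near hxs hx1 f hf P (κ / (3 * R)) (by positivity) (fun t ht => (hP t ht).le) v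
    have h3 := C2_poly P (σ y) x hσy (κ / (3 * (c + 1))) v fun i hi => hyF _
      (Finset.mem_biUnion.2 ⟨i, Finset.mem_range.2 hi, Finset.mem_image_of_mem _ hv⟩)
    rw [← hc] at h3
    have h4 : κ / (3 * R) * ‖v‖ ≤ κ / 3 := by
      calc κ / (3 * R) * ‖v‖ ≤ κ / (3 * R) * R := by
            have := hR v hv
            gcongr
        _ = κ / 3 := by field_simp
    have h5 : c * (κ / (3 * (c + 1))) ≤ κ / 3 := by
      have : c * (κ / (3 * (c + 1))) = c / (c + 1) * (κ / 3) := by field_simp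
      rw [this]
      have h6 : c / (c + 1) ≤ 1 := by
        rw [div_le_one (by positivity)]
        linarith
      calc c / (c + 1) * (κ / 3) ≤ 1 * (κ / 3) := by gcongr
        _ = κ / 3 := one_mul _
    have e2 : (cfc f (σ y)) v - (cfc f x) v =
        ((cfc f (σ y)) v - (Polynomial.aeval (σ y) P) v) +
        ((Polynomial.aeval (σ y) P) v - (Polynomial.aeval x P) v) -
        ((cfc f x) v - (Polynomial.aeval x P) v) := by abel
    rw [e2]
    calc _ ≤ (κ / 3 + κ / 3) + κ / 3 := by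
          refine (norm_sub_le _ _).trans (add_le_add ((norm_add_le _ _).trans (add_le_add ?_ ?_)) ?_)
          · exact h1.trans h4
          · exact h3.trans h5
          · exact h2.trans h4
      _ = κ := by ring

end Pool.Agent.helper32.CK
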