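import Pool.Agent.helper33.CK.C2

/-!
# The strong closure of the selfadjoint unit ball: projections
-/

set_option autoImplicit false

namespace Pool.Agent.helper32.CK

open scoped InnerProductSpace ComplexOrder
open Filter Topology

universe u v w

variable {A : Type u} [NonUnitalCStarAlgebra A] {H : Type v} [NormedAddCommGroup H]
  [InnerProductSpace ℂ H] [CompleteSpace H] {σ : A →⋆ₙₐ[ℂ] (H →L[ℂ] H)}

theorem C3_half {p r : H →L[ℂ] H} (hp : p ∈ Cl σ) (hr : r ∈ Cl σ) :
    (1 / 2 : ℝ) • (p - r) ∈ Cl σ := by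
  intro F κ hκ
  obtain ⟨y, hy, hy1, hyF⟩ := hp F κ hκ
  obtain ⟨z, hz, hz1, hzF⟩ := hr F κ hκ
  refine ⟨((1 / 2 : ℝ) : ℂ) • (y - z), ?_, ?_, fun v hv => ?_⟩
  · rw [isSelfAdjoint_iff, star_smul, star_sub, hy.star_eq, hz.star_eq]
    simp
  · rw [norm_smul, Complex.norm_real, Real.norm_of_nonneg (by norm_num)]
    have := (norm_sub_le y z).trans (add_le_add hy1 hz1)
    linarith
  · have h1 := hyF v hv
    have h2 := hzF v hv
    have e : σ (((1 / 2 : ℝ) : ℂ) • (y - z)) v - ((1 / 2 : ℝ) • (p - r)) v =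
        ((1 / 2 : ℝ) : ℂ) • ((σ y v - p v) - (σ z v - r v)) := by
      have e1 : ((1 / 2 : ℝ) • (p - r)) v = ((1 / 2 : ℝ) : ℂ) • (p v - r v) := rfl
      have e2 : σ (((1 / 2 : ℝ) : ℂ) • (y - z)) v = ((1 / 2 : ℝ) : ℂ) • (σ y v - σ z v) := by
        rw [map_smul, map_sub]
        rfl
      rw [e1, e2, ← smul_sub]
      congr 1
      abel
    rw [e, norm_smul, Complex.norm_real, Real.norm_of_nonneg (by norm_num)]
    have := (norm_sub_le (σ y v - p v) (σ z v - r v)).trans (add_le_add h1 h2)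
    linarith

theorem C3_two {q : H →L[ℂ] H} (hq : IsStarProjection q) (h : (1 / 2 : ℝ) • q ∈ Cl σ) :
    q ∈ Cl σ := by
  have hf : Continuous fun t : ℝ => max (-1) (min 1 (2 * t)) := by fun_prop
  have h1 := Cl.cfc_mem h (fun t => max (-1) (min 1 (2 * t))) hf (by norm_num) (fun t _ => by
    rw [abs_le]
    exact ⟨le_max_left _ _, max_le (by norm_num) (min_le_left _ _)⟩)
  have h2 : cfc (fun t : ℝ => max (-1) (min 1 (2 * t))) ((1 / 2 : ℝ) • q) = q := by
    rw [← cfc_comp_smul (1 / 2 : ℝ) (fun t : ℝ => max (-1) (min 1 (2 * t))) q hf.continuousOn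
      hq.isSelfAdjoint]
    have h3 : Set.EqOn (fun t : ℝ => max (-1) (min 1 (2 * ((1 / 2 : ℝ) • t)))) (fun t => t)
        (spectrum ℝ q) := by
      intro t ht
      have h4 := hq.isIdempotentElem.spectrum_subset ℝ ht
      rcases h4 with h4 | h4
      · rw [h4]; norm_num
      · rw [Set.mem_singleton_iff] at h4
        rw [h4]; norm_num
    rw [cfc_congr h3]
    exact cfc_id' ℝ q hq.isSelfAdjoint
  rwa [h2] at h1

theorem Cl.sub_proj {p r : H →L[ℂ] H} (hp : p ∈ Cl σ) (hr : r ∈ Cl σ)
    (hp1 : IsStarProjection p) (hr1 : IsStarProjection r) (hpr : p * r = r) :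
    p - r ∈ Cl σ :=
  C3_two (hr1.sub_of_mul_eq_right hp1 hpr) (C3_half hp hr)

/-- strong limits -/
theorem C3_slim {x : ℕ → (H →L[ℂ] H)} (hx : ∀ n, x n ∈ Cl σ) (r : H →L[ℂ] H)
    (h : ∀ v, Tendsto (fun n => x n v) atTop (𝓝 (r v))) : r ∈ Cl σ := by
  intro F κ hκ
  have h1 : ∀ᶠ n in atTop, ∀ v ∈ F, ‖x n v - r v‖ < κ / 2 := by
    rw [Filter.eventually_all_finset]
    intro v _
    have := (h v).eventually (Metric.ball_mem_nhds (r v) (show 0 < κ / 2 by positivity))
    filter_upwards [this] with n hn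
    rwa [← dist_eq_norm]
  obtain ⟨n, hn⟩ := h1.exists
  obtain ⟨y, hy, hy1, hyF⟩ := hx n F (κ / 2) (by positivity)
  refine ⟨y, hy, hy1, fun v hv => ?_⟩
  have e : σ y v - r v = (σ y v - x n v) + (x n v - r v) := by abel
  rw [e]
  calc _ ≤ κ / 2 + κ / 2 := (norm_add_le _ _).trans (add_le_add (hyF v hv) (hn v hv).le)
    _ = κ := by ring

theorem C3_nonneg {z : H →L[ℂ] H} (f : ℝ → ℝ) (h : ∀ t ∈ spectrum ℝ z, 0 ≤ f t) (v : H) :
    0 ≤ (⟪v, cfc f z v⟫_ℂ).re := by
  have h1 : 0 ≤ cfc f z := cfc_nonneg h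
  rw [ContinuousLinearMap.nonneg_iff_isPositive] at h1
  exact h1.re_inner_nonneg_right v

theorem Cl.spectral {z : H →L[ℂ] H} (hz : z ∈ Cl σ) (hz0 : z.IsPositive) (l : ℝ) (hl : 0 ≤ l)
    (hl1 : l < 1) : ∃ r ∈ Cl σ, IsStarProjection r ∧ Commute r z ∧
      (∀ v, l * ‖r v‖ ^ 2 ≤ (⟪r v, z (r v)⟫_ℂ).re) ∧
      (∀ v, r v = 0 → (⟪v, z v⟫_ℂ).re ≤ l * ‖v‖ ^ 2) ∧
      ∀ T : H →L[ℂ] H, T * z = z → T * r = r := by
  have hzs : IsSelfAdjoint z := Cl.isSelfAdjoint hz
  have hznn : 0 ≤ z := (ContinuousLinearMap.nonneg_iff_isPositive z).2 hz0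
  have hspec : ∀ t ∈ spectrum ℝ z, 0 ≤ t := fun t ht => spectrum_nonneg_of_nonneg hznn ht
  set k : ℝ → ℝ := fun t => max (t - l) 0 with hk
  have hkc : Continuous k := by fun_prop
  have hk0 : ∀ t, 0 ≤ k t := fun t => le_max_right _ _
  set w : H →L[ℂ] H := cfc k z with hw
  have hws : IsSelfAdjoint w := cfc_predicate k z
  set R : Submodule ℂ H := (LinearMap.range (w : H →ₗ[ℂ] H)).topologicalClosure with hR
  have hRc : IsClosed (R : Set H) := Submodule.isClosed_topologicalClosure _
  have : CompleteSpace R := hRc.completeSpace_coe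
  set r : H →L[ℂ] H := R.starProjection with hr
  have hwR : ∀ x, w x ∈ R := fun x =>
    Submodule.le_topologicalClosure _ ⟨x, rfl⟩
  -- the approximating functions
  set g : ℕ → ℝ → ℝ := fun n t => min 1 ((n + 1 : ℝ) * k t) with hg
  have hgc : ∀ n, Continuous (g n) := fun n => by fun_prop
  have hg0 : ∀ n t, 0 ≤ g n t := fun n t =>
    le_min zero_le_one (mul_nonneg (by positivity) (hk0 t))
  have hg1 : ∀ n t, g n t ≤ 1 := fun n t => min_le_left _ _
  have hgCl : ∀ n, cfc (g n) z ∈ Cl σ := fun n => Cl.cfc_mem hz (g n) (hgc n)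
    (by simp only [hg, hk, zero_sub, max_eq_right (neg_nonpos.2 hl), mul_zero]; norm_num)
    (fun t _ => by rw [abs_of_nonneg (hg0 n t)]; exact hg1 n t)
  have hgnorm : ∀ n, ‖cfc (g n) z‖ ≤ 1 := fun n => Cl.norm_le (hgCl n)
  -- `g n z` vanishes on the orthogonal of `R`
  have hker : ∀ u ∈ Rᗮ, w u = 0 := by
    intro u hu
    rw [← inner_self_eq_zero (𝕜 := ℂ), C1_inner hws]
    rw [Submodule.mem_orthogonal'] at hu
    exact hu _ (hwR _)
  have hgker : ∀ n, ∀ u ∈ Rᗮ, cfc (g n) z u = 0 := by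
    intro n u hu
    have hpos : (0 : ℝ) < 1 / (n + 1) := by positivity
    have hhc : Continuous fun t : ℝ => (max (t - l) (1 / (n + 1)))⁻¹ := by
      refine Continuous.inv₀ (by fun_prop) fun t => ?_
      exact (lt_max_of_lt_right hpos).ne'
    have e1 : cfc (g n) z = cfc (fun t : ℝ => (max (t - l) (1 / (n + 1)))⁻¹) z * w := by
      rw [hw, ← cfc_mul _ _ z hhc.continuousOn hkc.continuousOn]
      congr 1
      funext t
      simp only [hg, hk]
      have hn1 : (0 : ℝ) < n + 1 := by positivity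
      rcases le_total (t - l) 0 with h0 | h0
      · rw [max_eq_right h0, mul_zero, mul_zero]
        norm_num
      · rw [max_eq_left h0]
        rcases le_total (t - l) (1 / (n + 1)) with h1 | h1
        · rw [max_eq_right h1, min_eq_right]
          · field_simp
          · rw [le_div_iff₀ hn1] at h1
            linarith
        · rw [max_eq_left h1, min_eq_left]
          · have : 0 < t - l := lt_of_lt_of_le hpos h1
            field_simp
          · rw [div_le_iff₀ hn1] at h1
            linarith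
    rw [e1]
    change (cfc (fun t : ℝ => (max (t - l) (1 / (n + 1)))⁻¹) z) (w u) = 0
    rw [hker u hu, map_zero]
  -- `g n z` is near the identity on the range of `w`
  have hgran : ∀ (n : ℕ) (x : H), ‖cfc (g n) z (w x) - w x‖ ≤ 1 / (n + 1) * ‖x‖ := by
    intro n x
    have e1 : cfc (g n) z * w - w = cfc (fun t => g n t * k t - k t) z := by
      rw [cfc_sub (fun t => g n t * k t) k z (by fun_prop) (by fun_prop),
        cfc_mul (g n) k z (by fun_prop) (by fun_prop)]
    have h1 : ‖cfc (g n) z * w - w‖ ≤ 1 / (n + 1) := by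
      rw [e1]
      refine norm_cfc_le (by positivity) fun t _ => ?_
      have hn1 : (0 : ℝ) < n + 1 := by positivity
      rw [Real.norm_eq_abs, abs_le]
      have hkt := hk0 t
      have hgt := hg0 n t
      have hgt1 := hg1 n t
      rcases le_total (k t) (1 / (n + 1)) with h0 | h0
      · constructor
        · nlinarith
        · have : 0 < 1 / ((n : ℝ) + 1) := by positivity
          nlinarith
      · have h2 : g n t = 1 := by
          simp only [hg]
          rw [min_eq_left]
          rw [div_le_iff₀ hn1] at h0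
          linarith
        rw [h2, one_mul, sub_self]
        constructor <;> [exact (neg_nonpos.2 (by positivity)); positivity]
    calc ‖cfc (g n) z (w x) - w x‖ = ‖(cfc (g n) z * w - w) x‖ := rfl
      _ ≤ ‖cfc (g n) z * w - w‖ * ‖x‖ := ContinuousLinearMap.le_opNorm _ _
      _ ≤ 1 / (n + 1) * ‖x‖ := by gcongr
  have hlimR : ∀ u ∈ R, Tendsto (fun n => cfc (g n) z u) atTop (𝓝 u) := by
    intro u hu
    rw [Metric.tendsto_atTop]
    intro ε hε
    have hu' : u ∈ closure (LinearMap.range (w : H →ₗ[ℂ] H) : Set H) := hu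
    rw [Metric.mem_closure_iff] at hu'
    obtain ⟨_, ⟨x, rfl⟩, hx⟩ := hu' (ε / 3) (by positivity)
    obtain ⟨N, hN⟩ := exists_nat_gt (3 * (‖x‖ + 1) / ε)
    refine ⟨N, fun n hn => ?_⟩
    have hx' : ‖u - w x‖ < ε / 3 := by rwa [dist_eq_norm] at hx
    have h1 : ‖cfc (g n) z (w x) - w x‖ ≤ ε / 3 := by
      refine (hgran n x).trans ?_
      have hnN : (N : ℝ) ≤ n := by exact_mod_cast hn
      rw [div_lt_iff₀ hε] at hN
      rw [one_div, inv_mul_le_iff₀ (by positivity)]
      have := mul_le_mul_of_nonneg_right hnN hε.le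
      have hxn := norm_nonneg x
      nlinarith
    have h2 : ‖cfc (g n) z (u - w x)‖ ≤ ‖u - w x‖ := by
      refine (ContinuousLinearMap.le_opNorm _ _).trans ?_
      exact mul_le_of_le_one_left (norm_nonneg _) (hgnorm n)
    have e : cfc (g n) z u - u = cfc (g n) z (u - w x) + (cfc (g n) z (w x) - w x) - (u - w x) := by
      rw [map_sub]
      abel
    rw [dist_eq_norm, e]
    have h3 := norm_sub_le (cfc (g n) z (u - w x) + (cfc (g n) z (w x) - w x)) (u - w x)
    have h4 := norm_add_le (cfc (g n) z (u - w x)) (cfc (g n) z (w x) - w x)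
    linarith
  have hlim : ∀ v, Tendsto (fun n => cfc (g n) z v) atTop (𝓝 (r v)) := by
    intro v
    have h1 : ∀ n, cfc (g n) z v = cfc (g n) z (r v) := by
      intro n
      have h2 := hgker n (v - r v) (Submodule.sub_starProjection_mem_orthogonal v)
      rw [map_sub, sub_eq_zero] at h2
      exact h2
    simp only [h1]
    exact hlimR _ (Submodule.starProjection_apply_mem R v)
  have hrv : ∀ v, r v ∈ R := fun v => Submodule.starProjection_apply_mem R v
  refine ⟨r, C3_slim hgCl r hlim, isStarProjection_starProjection, ?_, ?_, ?_, ?_⟩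
  · -- commutation
    rw [commute_iff_eq]
    ext v
    have h1 : Tendsto (fun n => cfc (g n) z (z v)) atTop (𝓝 (r (z v))) := hlim (z v)
    have h2 : Tendsto (fun n => z (cfc (g n) z v)) atTop (𝓝 (z (r v))) :=
      (z.continuous.tendsto _).comp (hlim v)
    have h3 : ∀ n, cfc (g n) z (z v) = z (cfc (g n) z v) := by
      intro n
      have h4 : Commute (cfc (g n) z) (cfc (fun t : ℝ => t) z) := cfc_commute_cfc _ _ z
      rw [cfc_id' ℝ z hzs] at h4
      exact congrFun (congrArg DFunLike.coe h4.eq) v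
    simp only [h3] at h1
    exact tendsto_nhds_unique h1 h2
  · -- lower bound on the range
    intro v
    have hcl : IsClosed {u : H | l * ‖u‖ ^ 2 ≤ (⟪u, z u⟫_ℂ).re} := by
      refine isClosed_le (by fun_prop) ?_
      exact Complex.continuous_re.comp (continuous_id.inner z.continuous)
    have hsub : closure (LinearMap.range (w : H →ₗ[ℂ] H) : Set H) ⊆
        {u : H | l * ‖u‖ ^ 2 ≤ (⟪u, z u⟫_ℂ).re} := by
      refine closure_minimal ?_ hcl
      rintro _ ⟨x, rfl⟩
      change l * ‖w x‖ ^ 2 ≤ (⟪w x, z (w x)⟫_ℂ).re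
      have h1 := C3_nonneg (z := z) (fun t => k t * ((t - l) * k t)) (fun t ht => by
        rcases le_total (t - l) 0 with h0 | h0
        · have : k t = 0 := max_eq_right h0
          rw [this]; simp
        · exact mul_nonneg (hk0 t) (mul_nonneg h0 (hk0 t))) x
      rw [cfc_mul k (fun t => (t - l) * k t) z (by fun_prop) (by fun_prop),
        cfc_mul (fun t : ℝ => t - l) k z (by fun_prop) (by fun_prop),
        cfc_sub (fun t : ℝ => t) (fun _ => l) z (by fun_prop) (by fun_prop), cfc_id' ℝ z hzs,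
        cfc_const l z hzs] at h1
      have h2 : (w * ((z - algebraMap ℝ (H →L[ℂ] H) l) * w)) x = w (z (w x) - (l : ℂ) • w x) := by
        change w (z (w x) - algebraMap ℝ (H →L[ℂ] H) l (w x)) = _
        rfl
      rw [← hw, h2, ← C1_inner hws, inner_sub_right, inner_smul_right, Complex.sub_re,
        inner_self_eq_norm_sq_to_K] at h1
      have h3 : ((l : ℂ) * ((‖w x‖ : ℝ) : ℂ) ^ 2).re = l * ‖w x‖ ^ 2 := by
        rw [← Complex.ofReal_pow, ← Complex.ofReal_mul, Complex.ofReal_re]
      have h4 : (0 : ℝ) ≤ (⟪w x, z (w x)⟫_ℂ).re - l * ‖w x‖ ^ 2 := by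
        rw [← h3]
        exact h1
      linarith
    exact hsub (hrv v)
  · -- upper bound on the kernel
    intro v hv
    have hv' : v ∈ Rᗮ := by
      have := Submodule.sub_starProjection_mem_orthogonal (K := R) v
      rw [← hr, hv, sub_zero] at this
      exact this
    have h0 := hker v hv'
    have h1 := C3_nonneg (z := z) (fun t => k t - (t - l)) (fun t _ =>
      sub_nonneg.2 (le_max_left _ _)) v
    rw [cfc_sub k (fun t : ℝ => t - l) z (by fun_prop) (by fun_prop),
      cfc_sub (fun t : ℝ => t) (fun _ => l) z (by fun_prop) (by fun_prop), cfc_id' ℝ z hzs,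
      cfc_const l z hzs, ← hw] at h1
    have h2 : (w - (z - algebraMap ℝ (H →L[ℂ] H) l)) v = w v - (z v - (l : ℂ) • v) := rfl
    rw [h2, h0, zero_sub, inner_neg_right, inner_sub_right, inner_smul_right, Complex.neg_re,
      Complex.sub_re, inner_self_eq_norm_sq_to_K] at h1
    have h3 : ((l : ℂ) * ((‖v‖ : ℝ) : ℂ) ^ 2).re = l * ‖v‖ ^ 2 := by
      rw [← Complex.ofReal_pow, ← Complex.ofReal_mul, Complex.ofReal_re]
    have h4 : (0 : ℝ) ≤ -((⟪v, z v⟫_ℂ).re - l * ‖v‖ ^ 2) := by
      rw [← h3]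
      exact h1
    linarith
  · -- fixed by operators which fix `z`
    intro T hT
    have hTz : ∀ v, T (z v) = z v := fun v => congrFun (congrArg DFunLike.coe hT) v
    set Z : Submodule ℂ H := (LinearMap.range (z : H →ₗ[ℂ] H)).topologicalClosure with hZ
    have hTZ : ∀ u ∈ Z, T u = u := by
      intro u hu
      have hcl : IsClosed {u : H | T u = u} := isClosed_eq T.continuous continuous_id
      have hsub : closure (LinearMap.range (z : H →ₗ[ℂ] H) : Set H) ⊆ {u : H | T u = u} := by
        refine closure_minimal ?_ hcl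
        rintro _ ⟨x, rfl⟩
        exact hTz x
      exact hsub hu
    have : CompleteSpace Z := (Submodule.isClosed_topologicalClosure _).completeSpace_coe
    have hzZ : ∀ x, z x ∈ Z := fun x => Submodule.le_topologicalClosure _ ⟨x, rfl⟩
    -- `w` vanishes on the kernel of `z`
    have hwz : ∀ u, z u = 0 → w u = 0 := by
      intro u hu
      have h1 := C3_nonneg (z := z) (fun t => t * t - k t * k t) (fun t ht => by
        have h0 := hspec t ht
        have h2 : k t ≤ t := max_le (by linarith) h0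
        have := mul_le_mul h2 h2 (hk0 t) h0
        linarith) u
      rw [cfc_sub (fun t : ℝ => t * t) (fun t => k t * k t) z (by fun_prop) (by fun_prop),
        cfc_mul (fun t : ℝ => t) (fun t : ℝ => t) z (by fun_prop) (by fun_prop),
        cfc_mul k k z (by fun_prop) (by fun_prop), cfc_id' ℝ z hzs, ← hw] at h1
      have h2 : (z * z - w * w) u = z (z u) - w (w u) := rfl
      rw [h2, hu, map_zero, zero_sub, inner_neg_right, ← C1_inner hws, Complex.neg_re,
        inner_self_eq_norm_sq_to_K] at h1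
      have h3 : (((‖w u‖ : ℝ) : ℂ) ^ 2).re = ‖w u‖ ^ 2 := by
        rw [← Complex.ofReal_pow, Complex.ofReal_re]
      have h4 : (0 : ℝ) ≤ -(‖w u‖ ^ 2) := by
        rw [← h3]
        exact h1
      have h5 : ‖w u‖ ^ 2 = 0 := le_antisymm (by linarith) (sq_nonneg _)
      exact norm_eq_zero.1 (pow_eq_zero_iff two_ne_zero |>.1 h5)
    have hZperp : ∀ u ∈ Zᗮ, z u = 0 := by
      intro u hu
      rw [← inner_self_eq_zero (𝕜 := ℂ), C1_inner hzs]
      rw [Submodule.mem_orthogonal'] at hu
      exact hu _ (hzZ _)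
    have hwZ : ∀ x, w x ∈ Z := by
      intro x
      have hZc : IsClosed (Z : Set H) := Submodule.isClosed_topologicalClosure _
      rw [← Submodule.orthogonal_orthogonal Z, Submodule.mem_orthogonal]
      intro u hu
      rw [← C1_inner hws, hwz u (hZperp u hu), inner_zero_left]
    have hRZ : R ≤ Z := by
      refine Submodule.topologicalClosure_minimal _ ?_ (Submodule.isClosed_topologicalClosure _)
      rintro _ ⟨x, rfl⟩
      exact hwZ x
    ext v
    exact hTZ _ (hRZ (hrv v))

end Pool.Agent.helper32.CK
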